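import Pool.Agent.P.MP_a7c6c4_al.H37.Bridge

set_option autoImplicit false
open CategoryTheory

namespace Pool.Agent.Results.MP_a7c6c4_al.AnyField

open Pool.Agent.P.MP_a7c6c4_al.H37

/-- Over an arbitrary field, a lattice point `[Q0] - [Q1]` that is not the class of a two-term
presilting complex forces an infinite semibrick. -/
theorem result :
    ∀ (K : Type) [Field K] (A : Type) [Ring A] [Algebra K A] [FiniteDimensional K A]
      (Q0 Q1 : ModuleCat.{0} A),
      Module.Finite A Q0 → Module.Finite A Q1 →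
      Module.Projective A Q0 → Module.Projective A Q1 →
      (∀ P0 P1 : ModuleCat.{0} A, Module.Finite A P0 → Module.Finite A P1 →
          Module.Projective A P0 → Module.Projective A P1 →
          Nonempty ((P0 × Q1) ≃ₗ[A] (Q0 × P1)) → ∀ f : P1 →ₗ[A] P0,
          ¬∀ h : P1 →ₗ[A] P0, ∃ (a : P0 →ₗ[A] P0) (b : P1 →ₗ[A] P1), h = a ∘ₗ f + f ∘ₗ b) →
      ∃ M : ℕ → ModuleCat.{0} A,
          (∀ i, Module.Finite A (M i) ∧ Nontrivial (M i) ∧
              ∀ f : M i ⟶ M i, f ≠ 0 → IsIso f) ∧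
          ∀ i j, i ≠ j → ∀ f : M i ⟶ M j, f = 0 := by
  intro K _ A _ _ _ Q0 Q1 g0 g1 q0 q1 h
  refine semibrick_of_not_NS (K := K) fun hNS => ?_
  obtain ⟨D, hD, hr⟩ := hNS.exists_rigid (presOf K Q0 Q1 g0 g1 q0 q1)
  refine h (ModuleCat.of A D.P0) (ModuleCat.of A D.P1) (finA _) (finA _) D.p0 D.p1 ?_ D.d
    (Pres.ez hr)
  refine proj_iso (D.P0.prod (toFM K Q1 g1)) ((toFM K Q0 g0).prod D.P1) fun M => ?_
  have := congrFun hD M
  rw [hom_prod, hom_prod]
  change (hom D.P0 M : ℤ) - hom D.P1 M = (hom (toFM K Q0 g0) M : ℤ) - hom (toFM K Q1 g1) M at this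
  omega

end Pool.Agent.Results.MP_a7c6c4_al.AnyField
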