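import Pool.Agent.P.MP_a7c6c4_al.Bridge

set_option autoImplicit false

open CategoryTheory Pool.Agent.P.MP_a7c6c4_al

/-- Demonet's conjecture for algebras with at most two simple modules, over any field. -/
theorem Pool.Agent.Results.MP_a7c6c4_al.DemonetRankTwo.result :
    ∀ (K : Type) [Field K] (A : Type) [Ring A] [Algebra K A] [FiniteDimensional K A]
      (S₁ S₂ : ModuleCat.{0} A),
      (∀ S : ModuleCat.{0} A, IsSimpleModule A S → Nonempty (S ≅ S₁) ∨ Nonempty (S ≅ S₂)) →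
      (∃ M : ℕ → ModuleCat.{0} A,
          (∀ i, Module.Finite A (M i) ∧ Nontrivial (M i) ∧
              ∀ f : M i ⟶ M i, f ≠ 0 → IsIso f) ∧
          ∀ i j, i ≠ j → IsEmpty (M i ≅ M j)) →
      ∃ P0 P1 : ModuleCat.{0} A, FGProj P0 ∧ FGProj P1 ∧
        ¬ ∃ (n : ℕ) (U1 U0 : Fin n → ModuleCat.{0} A) (f : ∀ i, U1 i ⟶ U0 i) (a : Fin n → ℝ),
          (∀ i, FGProj (U1 i) ∧ FGProj (U0 i)) ∧ (∀ i j, NoExt (f i) (f j)) ∧ (∀ i, 0 < a i) ∧
          ∀ N : ModuleCat.{0} A, Module.Finite A N →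
            (pairing K P0 P1 N : ℝ) = ∑ i, a i * pairing K (U0 i) (U1 i) N := by
  intro K _ A _ _ _ S₁ S₂ hS h
  by_contra hc
  refine not_finIso_brick (K := K) h (rank_two' ?_ S₁ S₂ hS)
  rintro _ ⟨P, Q, hP, hQ, rfl⟩
  by_contra hF
  refine hc ⟨ModuleCat.of A Q, ModuleCat.of A P, ⟨inferInstance, hQ⟩, ⟨inferInstance, hP⟩, ?_⟩
  rintro ⟨n, U1, U0, f, a, h1, h2, h3, h4⟩
  refine hF (hasFam_of_real (fun i => toPres K (h1 i).1 (h1 i).2 (f i))
    (fun i j => E0_of_noExt _ _ _ _ (h2 i j)) a (fun i => (h3 i).le) P Q fun N => ?_)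
  have h5 := h4 (ModuleCat.of A N) inferInstance
  rw [pairing_eq (.refl A Q) (.refl A P) (.refl A N)] at h5
  rw [h5]
  refine Finset.sum_congr rfl fun i _ => ?_
  rw [pairing_eq (Q0 := toMd K (U0 i) (h1 i).2.1) (Q1 := toMd K (U1 i) (h1 i).1.1)
    (.refl A (U0 i)) (.refl A (U1 i)) (.refl A N)]
  rfl
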