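import Pool.Agent.P.MP_a7c6c4_al.H37.Bridge

set_option autoImplicit false
open CategoryTheory

namespace Pool.Agent.Results.MP_a7c6c4_al.RankTwo

open Pool.Agent.P.MP_a7c6c4_al.H37

/-- Enomoto's conjecture for algebras with at most two simple modules, over any field. -/
theorem result :
    ∀ (K : Type) [Field K] (A : Type) [Ring A] [Algebra K A] [FiniteDimensional K A],
      (∀ S T U : ModuleCat.{0} A, IsSimpleModule A S → IsSimpleModule A T → IsSimpleModule A U →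
          Nonempty (S ≅ T) ∨ Nonempty (S ≅ U) ∨ Nonempty (T ≅ U)) →
      (∃ M : ℕ → ModuleCat.{0} A,
          (∀ i, Module.Finite A (M i) ∧ Nontrivial (M i) ∧
              ∀ f : M i ⟶ M i, f ≠ 0 → IsIso f) ∧
          ∀ i j, i ≠ j → IsEmpty (M i ≅ M j)) →
      ∃ M : ℕ → ModuleCat.{0} A,
          (∀ i, Module.Finite A (M i) ∧ Nontrivial (M i) ∧
              ∀ f : M i ⟶ M i, f ≠ 0 → IsIso f) ∧
          ∀ i j, i ≠ j → ∀ f : M i ⟶ M j, f = 0 := by
  rintro K _ A _ _ _ h3 ⟨M, hM, hiso⟩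
  refine semibrick_of_not_NS (K := K) fun hNS => ?_
  have hfin := two_isoFin (K := K) (A := A) hNS.exists_rigid (by
    intro S T U a b c
    rcases h3 (ModuleCat.of A S) (ModuleCat.of A T) (ModuleCat.of A U) a b c with
      ⟨⟨e⟩⟩ | ⟨⟨e⟩⟩ | ⟨⟨e⟩⟩
    exacts [Or.inl ⟨e.toLinearEquiv⟩, Or.inr (Or.inl ⟨e.toLinearEquiv⟩),
      Or.inr (Or.inr ⟨e.toLinearEquiv⟩)])
  obtain ⟨i, j, hij, ⟨e⟩⟩ := hfin.not_seq (fun i => toFM K (M i) (hM i).1)
    (fun i => brick_toFM (M i) (hM i).1 (hM i).2.1 (hM i).2.2)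
  exact (hiso i j hij).false e.toModuleIso

end Pool.Agent.Results.MP_a7c6c4_al.RankTwo
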