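import Pool.Agent.P.MP_a7c6c4_al.H37.Bridge

set_option autoImplicit false
open CategoryTheory

namespace Pool.Agent.Results.MP_a7c6c4_al.StablePlane

open Pool.Agent.P.MP_a7c6c4_al.H37

/-- Infinitely many modules that are King-stable for weights in the real plane spanned by two
lattice points force an infinite semibrick (any rank, any field). -/
theorem result :
    ∀ (K : Type) [Field K] (A : Type) [Ring A] [Algebra K A] [FiniteDimensional K A]
      (P0 P1 Q0 Q1 : ModuleCat.{0} A),
      Module.Finite A P0 → Module.Finite A P1 → Module.Finite A Q0 → Module.Finite A Q1 →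
      Module.Projective A P0 → Module.Projective A P1 →
      Module.Projective A Q0 → Module.Projective A Q1 →
      (∃ M : ℕ → ModuleCat.{0} A,
          (∀ i, Module.Finite A (M i) ∧ ∃ a b : ℝ,
              KingStable (fun N => a * weight K P0 P1 N + b * weight K Q0 Q1 N) (M i)) ∧
          ∀ i j, i ≠ j → IsEmpty (M i ≅ M j)) →
      ∃ M : ℕ → ModuleCat.{0} A,
          (∀ i, Module.Finite A (M i) ∧ Nontrivial (M i) ∧
              ∀ f : M i ⟶ M i, f ≠ 0 → IsIso f) ∧
          ∀ i j, i ≠ j → ∀ f : M i ⟶ M j, f = 0 := by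
  rintro K _ A _ _ _ P0 P1 Q0 Q1 f0 f1 g0 g1 p0 p1 q0 q1 ⟨M, hM, hiso⟩
  refine semibrick_of_not_NS (K := K) fun hNS => ?_
  have hfin := plane_isoFin (K := K) (A := A) hNS.exists_rigid
    (fun U => hNS.isoFin_stable U.additive) (presOf K P0 P1 f0 f1 p0 p1)
    (presOf K Q0 Q1 g0 g1 q0 q1)
  obtain ⟨i, j, hij, ⟨e⟩⟩ := hfin.not_seq (fun i => toFM K (M i) (hM i).1) (fun i => by
    obtain ⟨hf, a, b, h1, h2, h3⟩ := hM i
    refine stable_of_real _ _ _ a b h1 ?_ fun L c d => ?_
    · rw [← weight_eq, ← weight_eq]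
      exact h2
    · rw [← weight_sub, ← weight_sub]
      exact h3 L c d)
  exact (hiso i j hij).false e.toModuleIso

end Pool.Agent.Results.MP_a7c6c4_al.StablePlane
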